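import Pool.Agent.H36.Fact

open Pool.Agent.H38.NP Pool.Agent.H36.Fact

theorem Pool.Agent.Results.MP_e24068_lc.Hard.result : NPHardOn Valid Fact :=
  hard.npHardOn
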